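import Pool.Agent.H626.SE.PEnergy

/-!
# MP_aaf0ed_co: the negative `p`-energy of a connected graph is at least that of the complete graph
-/

set_option autoImplicit false

namespace Pool.Agent.Results.MP_aaf0ed_co.NegativePEnergy

/-- The negative `p`-energy of a graph: the sum of `|λ| ^ p` over the negative eigenvalues `λ`
of the adjacency matrix, listed with multiplicity (`h` is the fact that this matrix is
symmetric). -/
noncomputable def negEnergy {V : Type*} [Fintype V] [DecidableEq V] (G : SimpleGraph V)
    [DecidableRel G.Adj] (h : (G.adjMatrix ℝ).IsHermitian) (p : ℝ) : ℝ :=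
  ∑ i, if h.eigenvalues i < 0 then |h.eigenvalues i| ^ p else 0

/-- Q1 of MP_aaf0ed_co, for every real `p ≥ 2`: a connected graph `G` on the vertex set `V` has
negative `p`-energy at least that of the complete graph on `V`, which is `n - 1`; for `p > 2`
equality holds only for the complete graph. -/
theorem result {V : Type*} [Fintype V] [DecidableEq V] (G : SimpleGraph V) [DecidableRel G.Adj]
    (hG : G.Connected) (h : (G.adjMatrix ℝ).IsHermitian)
    (hK : ((⊤ : SimpleGraph V).adjMatrix ℝ).IsHermitian) (p : ℝ) (hp : 2 ≤ p) :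
    negEnergy (⊤ : SimpleGraph V) hK p ≤ negEnergy G h p ∧
      negEnergy (⊤ : SimpleGraph V) hK p = (Fintype.card V : ℝ) - 1 ∧
      (2 < p → negEnergy G h p = negEnergy (⊤ : SimpleGraph V) hK p → G = ⊤) := by
  have := hG.nonempty
  have h1 : negEnergy (⊤ : SimpleGraph V) hK p = (Fintype.card V : ℝ) - 1 :=
    H626.SE.p_energy_top hK p
  have h2 : (Fintype.card V : ℝ) - 1 ≤ negEnergy G h p := H626.SE.p_energy G h hG p hp
  refine ⟨by rw [h1]; exact h2, h1, ?_⟩
  intro hp2 he
  rw [h1] at he
  exact H626.SE.p_energy_eq G h hG p hp2 he.le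

end Pool.Agent.Results.MP_aaf0ed_co.NegativePEnergy
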